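import Mathlib

/-!
# Rectifiable `p`-spaces with countable cellularity are Lindelof

Question Q1 of the problem (which contains both parts of Q2).
-/

namespace Pool.Agent.Results.MP_46c3d4_gt.LindelofCcc

open Set Topology

/-- A space `X` is rectifiable if there are a point `e` and a homeomorphism `φ` of `X × X` onto
itself with `φ ({x} × X) = {x} × X` and `φ (x, x) = (x, e)` for all `x`. -/
def IsRectifiable (X : Type*) [TopologicalSpace X] : Prop :=
  ∃ (e : X) (φ : (X × X) ≃ₜ (X × X)),
    (∀ x : X, φ '' (({x} : Set X) ×ˢ (univ : Set X)) = ({x} : Set X) ×ˢ (univ : Set X)) ∧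
    ∀ x : X, φ (x, x) = (x, e)

/-- The star of a point with respect to a family of sets. -/
def star {Y : Type*} (x : Y) (γ : Set (Set Y)) : Set Y := ⋃₀ {U | U ∈ γ ∧ x ∈ U}

/-- A `p`-space in the sense of Arhangel'skii: a Tychonoff space `X` with a sequence `γ n` of
families of open subsets of the Stone-Cech compactification, each covering `X`, such that
for every `x` in `X` the intersection of the stars of `x` lies in `X`. -/
def IsPSpace (X : Type*) [TopologicalSpace X] : Prop :=
  T35Space X ∧ ∃ γ : ℕ → Set (Set (StoneCech X)),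
    (∀ n, ∀ U ∈ γ n, IsOpen U) ∧
    (∀ n, range (stoneCechUnit : X → StoneCech X) ⊆ ⋃₀ (γ n)) ∧
    ∀ x : X, (⋂ n, star (stoneCechUnit x) (γ n)) ⊆ range (stoneCechUnit : X → StoneCech X)

/-- Countable Souslin number: every family of pairwise disjoint nonempty open sets is
countable. -/
def CountableSouslin (X : Type*) [TopologicalSpace X] : Prop :=
  ∀ 𝒰 : Set (Set X), (∀ U ∈ 𝒰, IsOpen U ∧ U.Nonempty) → 𝒰.PairwiseDisjoint id → 𝒰.Countable

/-- In a `p`-space every point lies in a compact set with a countable outer base. -/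
theorem exists_compact_countable_character {X : Type*} [TopologicalSpace X]
    (hp : IsPSpace X) (e : X) :
    ∃ (K : Set X) (W : ℕ → Set X), e ∈ K ∧ IsCompact K ∧ (∀ n, IsOpen (W n)) ∧ (∀ n, K ⊆ W n) ∧
      ∀ O : Set X, IsOpen O → K ⊆ O → ∃ n, W n ⊆ O := by
  obtain ⟨hT, γ, hopen, hcov, hst⟩ := hp
  set i : X → StoneCech X := stoneCechUnit with hi
  have hemb : IsEmbedding i := isEmbedding_stoneCechUnit
  -- the stars are open neighbourhoods
  have hS : ∀ n, star (i e) (γ n) ∈ 𝓝 (i e) := by
    intro n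
    obtain ⟨U, hU, heU⟩ := hcov n (mem_range_self e)
    refine Filter.mem_of_superset ((hopen n U hU).mem_nhds heU) ?_
    exact subset_sUnion_of_mem ⟨hU, heU⟩
  -- choose shrinking closed neighbourhoods
  have step : ∀ s : Set (StoneCech X), s ∈ 𝓝 (i e) → ∃ t : Set (StoneCech X),
      IsOpen t ∧ i e ∈ t ∧ closure t ⊆ s := by
    intro s hs
    obtain ⟨c, hc, hcc, hcs⟩ := exists_mem_nhds_isClosed_subset hs
    refine ⟨interior c, isOpen_interior, mem_interior_iff_mem_nhds.2 hc, ?_⟩
    exact (closure_mono interior_subset).trans (by rw [hcc.closure_eq]; exact hcs)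
  choose f hfo hfe hfc using step
  let U : ℕ → {s : Set (StoneCech X) // s ∈ 𝓝 (i e)} := fun n => Nat.rec
    ⟨f _ (hS 0), (hfo _ (hS 0)).mem_nhds (hfe _ (hS 0))⟩
    (fun n s => ⟨f _ (Filter.inter_mem s.2 (hS (n+1))),
      (hfo _ (Filter.inter_mem s.2 (hS (n+1)))).mem_nhds (hfe _ (Filter.inter_mem s.2 (hS (n+1))))⟩) n
  have hUopen : ∀ n, IsOpen (U n).1 := by
    intro n; cases n with
    | zero => exact hfo _ _
    | succ n => exact hfo _ _
  have hUe : ∀ n, i e ∈ (U n).1 := fun n => mem_of_mem_nhds (U n).2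
  have hUs : ∀ n, closure (U (n+1)).1 ⊆ (U n).1 ∩ star (i e) (γ (n+1)) := by
    intro n
    exact hfc _ (Filter.inter_mem (U n).2 (hS (n+1)))
  have hU0 : closure (U 0).1 ⊆ star (i e) (γ 0) := hfc _ (hS 0)
  have hUst : ∀ n, closure (U n).1 ⊆ star (i e) (γ n) := by
    intro n; cases n with
    | zero => exact hU0
    | succ n => exact (hUs n).trans inter_subset_right
  have hanti : Antitone (fun n => closure (U n).1) := by
    refine antitone_nat_of_succ_le fun n => ?_
    exact ((hUs n).trans inter_subset_left).trans subset_closure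
  set K' : Set (StoneCech X) := ⋂ n, closure (U n).1 with hK'
  have hK'closed : IsClosed K' := isClosed_iInter fun n => isClosed_closure
  have hK'comp : IsCompact K' := hK'closed.isCompact
  have hK'r : K' ⊆ range i := by
    refine Subset.trans ?_ (hst e)
    exact iInter_mono fun n => hUst n
  refine ⟨i ⁻¹' K', fun n => i ⁻¹' (U n).1, ?_, ?_, ?_, ?_, ?_⟩
  · exact mem_iInter.2 fun n => subset_closure (hUe n)
  · exact (hemb.isCompact_preimage_iff hK'r).2 hK'comp
  · exact fun n => (hUopen n).preimage hemb.continuous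
  · intro n
    refine preimage_mono ?_
    exact (iInter_subset _ (n+1)).trans ((hUs n).trans inter_subset_left)
  · intro O hO hKO
    obtain ⟨O', hO', rfl⟩ := hemb.isOpen_iff.1 hO
    have hK'O : K' ⊆ O' := by
      intro y hy
      obtain ⟨x, rfl⟩ := hK'r hy
      exact hKO hy
    have := exists_subset_nhds_of_isCompact (V := fun n => closure (U n).1)
      (U := O') (hanti.directed_ge) (fun n => isClosed_closure.isCompact)
      (fun x hx => hO'.mem_nhds (hK'O hx))
    obtain ⟨n, hn⟩ := this
    exact ⟨n, fun x hx => hn (subset_closure hx)⟩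

/-- Every rectifiable `p`-space with countable Souslin number is Lindelof. -/
theorem result (X : Type*) [TopologicalSpace X] (hr : IsRectifiable X) (hp : IsPSpace X)
    (hc : CountableSouslin X) : LindelofSpace X := by
  obtain ⟨e, φ, hφ, hdiag⟩ := hr
  obtain ⟨K, W, heK, hK, hWo, hKW, hW⟩ := exists_compact_countable_character hp e
  -- coordinates of the rectification and of its inverse
  let q : X × X → X := fun z => (φ z).2
  let p : X × X → X := fun z => (φ.symm z).2
  have hq : Continuous q := continuous_snd.comp φ.continuous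
  have hpc : Continuous p := continuous_snd.comp φ.symm.continuous
  have hφ1 : ∀ x y, (φ (x, y)).1 = x := by
    intro x y
    have : φ (x, y) ∈ φ '' (({x} : Set X) ×ˢ (univ : Set X)) := ⟨(x, y), by simp, rfl⟩
    rw [hφ] at this
    simpa using this
  have hφs1 : ∀ x y, (φ.symm (x, y)).1 = x := by
    intro x y
    have h := hφ1 (φ.symm (x, y)).1 (φ.symm (x, y)).2
    simpa using h.symm
  have hpq : ∀ x y, p (x, q (x, y)) = y := by
    intro x y
    have h1 : (x, q (x, y)) = φ (x, y) := Prod.ext (hφ1 x y).symm rfl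
    show (φ.symm (x, q (x, y))).2 = y
    rw [h1]; simp
  have hqd : ∀ x, q (x, x) = e := by
    intro x; show (φ (x, x)).2 = e; rw [hdiag]
  -- the key local statement
  have key : ∀ x : X, ∀ O : Set X, IsOpen O → (∀ k ∈ K, p (x, k) ∈ O) →
      ∃ s : ℕ, ∃ V : Set X, IsOpen V ∧ x ∈ V ∧ ∀ y ∈ V, q (y, x) ∈ W s ∧ ∀ w ∈ W s, p (y, w) ∈ O := by
    intro x O hO hxO
    have ho : IsOpen (p ⁻¹' O) := hO.preimage hpc
    have hsub : ({x} : Set X) ×ˢ K ⊆ p ⁻¹' O := by
      rintro ⟨a, b⟩ ⟨ha, hb⟩
      simp only [mem_singleton_iff] at ha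
      subst ha
      exact hxO b hb
    obtain ⟨V, W', hV, hW', hxV, hKW', hVW⟩ :=
      generalized_tube_lemma isCompact_singleton hK ho hsub
    obtain ⟨s, hs⟩ := hW W' hW' hKW'
    refine ⟨s, V ∩ {y | q (y, x) ∈ W s}, hV.inter ((hWo s).preimage (by fun_prop)), ⟨hxV rfl, ?_⟩, ?_⟩
    · show q (x, x) ∈ W s
      rw [hqd]; exact hKW s heK
    · rintro y ⟨hy, hy'⟩
      refine ⟨hy', fun w hw => ?_⟩
      exact hVW ⟨hy, hs hw⟩
  refine ⟨isLindelof_of_countable_subcover fun {ι} U hU hcov => ?_⟩
  -- finite subfamilies covering the translates of `K`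
  have hfin : ∀ x : X, ∃ t : Finset ι, ∀ k ∈ K, p (x, k) ∈ ⋃ i ∈ t, U i := by
    intro x
    have hKx : IsCompact ((fun k => p (x, k)) '' K) := hK.image (by fun_prop)
    obtain ⟨t, ht⟩ := hKx.elim_finite_subcover U hU ((subset_univ _).trans hcov)
    exact ⟨t, fun k hk => ht ⟨k, hk, rfl⟩⟩
  choose t ht using hfin
  have hkey := fun x => key x (⋃ i ∈ t x, U i) (isOpen_biUnion fun i _ => hU i) (ht x)
  choose s V hVo hxV hVs using hkey
  -- two points with the same index and meeting neighbourhoods
  have hmeet : ∀ x x' : X, s x = s x' → (V x ∩ V x').Nonempty → x' ∈ ⋃ i ∈ t x, U i := by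
    rintro x x' hs ⟨y, hy, hy'⟩
    have h1 := (hVs x' y hy').1
    rw [← hs] at h1
    have h2 := (hVs x y hy).2 _ h1
    rwa [hpq] at h2
  -- for each index a countable set of points suffices
  have hcount : ∀ n : ℕ, ∃ A : Set X, A.Countable ∧ ∀ x, s x = n → x ∈ ⋃ a ∈ A, ⋃ i ∈ t a, U i := by
    intro n
    let F : Set (Set X) := {A | (∀ a ∈ A, s a = n) ∧ A.PairwiseDisjoint V}
    obtain ⟨A, hA⟩ : ∃ A, Maximal (fun A => A ∈ F) A := by
      refine zorn_subset F ?_
      intro c hc hchain
      refine ⟨⋃₀ c, ⟨?_, ?_⟩, fun A hA => subset_sUnion_of_mem hA⟩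
      · rintro a ⟨A, hA, haA⟩
        exact (hc hA).1 a haA
      · exact (pairwiseDisjoint_sUnion hchain.directedOn).2 fun A hA => (hc hA).2
    refine ⟨A, ?_, ?_⟩
    · have hinj : InjOn V A := by
        intro a ha b hb hab
        by_contra hne
        have := hA.prop.2 ha hb hne
        simp only [Function.onFun] at this
        rw [hab, disjoint_self] at this
        have hb' := hxV b
        rw [this] at hb'
        exact hb'
      have hcV : (V '' A).Countable := by
        refine hc (V '' A) ?_ ?_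
        · rintro _ ⟨a, _, rfl⟩
          exact ⟨hVo a, ⟨a, hxV a⟩⟩
        · rintro _ ⟨a, ha, rfl⟩ _ ⟨b, hb, rfl⟩ hne
          exact hA.prop.2 ha hb (fun h => hne (by rw [h]))
      exact countable_of_injective_of_countable_image hinj hcV
    · intro x hx
      by_cases hxA : x ∈ A
      · exact mem_biUnion hxA (hmeet x x rfl ⟨x, hxV x, hxV x⟩)
      · by_contra hcon
        have hins : insert x A ∈ F := by
          refine ⟨?_, ?_⟩
          · rintro a (rfl | ha)
            · exact hx
            · exact hA.prop.1 a ha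
          · refine hA.prop.2.insert fun a ha _ => ?_
            rw [Set.disjoint_left]
            intro y hy hy'
            exact hcon (mem_biUnion ha
              (hmeet a x (by rw [hx, hA.prop.1 a ha]) ⟨y, hy', hy⟩))
        have := hA.le_of_ge hins (subset_insert x A)
        exact hxA (this (mem_insert x A))
  choose A hAc hA using hcount
  have hall : (⋃ n, A n).Countable := countable_iUnion hAc
  refine ⟨⋃ a ∈ ⋃ n, A n, (t a : Set ι), ?_, ?_⟩
  · exact hall.biUnion fun a _ => (t a).countable_toSet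
  · intro x _
    obtain ⟨a, ha, hxa⟩ := mem_iUnion₂.1 (hA (s x) x rfl)
    obtain ⟨i, hi, hxi⟩ := mem_iUnion₂.1 hxa
    exact mem_biUnion (mem_biUnion (mem_iUnion.2 ⟨s x, ha⟩) (Finset.mem_coe.2 hi)) hxi

end Pool.Agent.Results.MP_46c3d4_gt.LindelofCcc
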